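import Mathlib
import Pool.Agent.Helper39.PDom

set_option autoImplicit false

/-!
Lower bound `log n / log 4` for the upper directed `p`-domination number of the complete
`r`-uniform hypergraph, valid as soon as every tournament on `r` vertices has a dominating set
of size at most `p`, in particular for `r ≤ (p+2) * 2^(p-1) - 2`.
-/

namespace Pool.Agent.Helper77.PDomTheta

open Pool.Agent.Helper39 Finset

/-- In a nonempty finite tournament some vertex is beaten by at most half of the others. -/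
theorem exists_small_indegree {V : Type*} [DecidableEq V] (T : V → V → Prop) [DecidableRel T]
    (hT : ∀ u v, u ≠ v → (T u v ↔ ¬ T v u)) (E : Finset V) (hne : E.Nonempty) :
    ∃ v ∈ E, 2 * (E.filter (fun u => u ≠ v ∧ T u v)).card + 1 ≤ E.card := by
  have hsum : ∑ v ∈ E, (E.filter (fun u => u ≠ v ∧ T u v)).card
      ≤ ∑ v ∈ E, (E.filter (fun u => v ≠ u ∧ T v u)).card := by
    have := sum_card_bipartiteAbove_eq_sum_card_bipartiteBelow
      (s := E) (t := E) (fun a b : V => a ≠ b ∧ T a b)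
    unfold bipartiteAbove bipartiteBelow at this
    exact this.symm.le
  obtain ⟨v, hv, hle⟩ := exists_le_of_sum_le hne hsum
  have hpart : (E.filter (fun u => u ≠ v ∧ T u v)).card
      + (E.filter (fun u => v ≠ u ∧ T v u)).card + 1 = E.card := by
    have h1 : E.filter (fun u => u ≠ v ∧ T u v) = (E.erase v).filter (fun u => T u v) := by
      ext u; simp only [mem_filter, mem_erase]; tauto
    have h2 : E.filter (fun u => v ≠ u ∧ T v u) = (E.erase v).filter (fun u => ¬ T u v) := by
      ext u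
      simp only [mem_filter, mem_erase]
      constructor
      · rintro ⟨a, b, c⟩
        exact ⟨⟨fun h => b h.symm, a⟩, (hT v u b).1 c⟩
      · rintro ⟨⟨a, b⟩, c⟩
        exact ⟨b, fun h => a h.symm, (hT v u (fun h => a h.symm)).2 c⟩
    rw [h1, h2, card_filter_add_card_filter_not, card_erase_of_mem hv]
    have := card_pos.2 hne
    omega
  exact ⟨v, hv, by omega⟩

/-- Esther and George Szekeres: every tournament on fewer than `(p+2) * 2^(p-1) - 1` vertices
has a dominating set of size at most `p`. -/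
theorem tournament_dom {V : Type*} [DecidableEq V] (T : V → V → Prop) [DecidableRel T]
    (hT : ∀ u v, u ≠ v → (T u v ↔ ¬ T v u)) (p : ℕ) (hp : 1 ≤ p)
    (E : Finset V) (hE : E.card + 2 ≤ (p + 2) * 2 ^ (p - 1)) :
    ∃ A ⊆ E, A.card ≤ p ∧ ∀ u ∈ E, u ∉ A → ∃ s ∈ A, T s u := by
  by_contra hno
  push Not at hno
  let D : Finset V → Finset V := fun A => E.filter (fun u => u ∉ A ∧ ∀ s ∈ A, ¬ T s u)
  have key : ∀ i : ℕ, i ≤ p - 1 → ∀ A ⊆ E, A.card ≤ p - 1 - i →
      (p + 2) * 2 ^ i ≤ (D A).card + 1 := by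
    intro i
    induction i with
    | zero =>
      intro _ A hA hAc
      by_contra hlt
      have hc : (D A).card ≤ p := by
        simp only [pow_zero, mul_one] at hlt
        omega
      obtain ⟨w, hwE, hwD, hw⟩ := hno (D A) (filter_subset _ _) hc
      obtain ⟨u, huE, huA, hu⟩ := hno (insert w A) (insert_subset hwE hA)
        ((card_insert_le _ _).trans (by omega))
      rw [mem_insert, not_or] at huA
      have huD : u ∈ D A := by
        simp only [D, mem_filter]
        exact ⟨huE, huA.2, fun s hs => hu s (mem_insert_of_mem hs)⟩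
      exact hw u huD ((hT u w huA.1).2 (hu w (mem_insert_self _ _)))
    | succ i ih =>
      intro hi A hA hAc
      have hne : (D A).Nonempty := by
        obtain ⟨u, huE, huA, hu⟩ := hno A hA (by omega)
        exact ⟨u, by simp only [D, mem_filter]; exact ⟨huE, huA, hu⟩⟩
      obtain ⟨b, hb, hbc⟩ := exists_small_indegree T hT (D A) hne
      have hbE : b ∈ E := (mem_filter.1 hb).1
      have h1 := ih (by omega) (insert b A) (insert_subset hbE hA)
        ((card_insert_le _ _).trans (by omega))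
      have h2 : (D (insert b A)).card ≤ ((D A).filter (fun u => u ≠ b ∧ T u b)).card := by
        apply card_le_card
        intro u hu
        simp only [D, mem_filter, mem_insert, not_or, forall_eq_or_imp] at hu ⊢
        obtain ⟨huE, ⟨hub, huA⟩, hbu, hu⟩ := hu
        exact ⟨⟨huE, huA, hu⟩, hub, (hT u b hub).2 hbu⟩
      have h3 : (p + 2) * 2 ^ (i + 1) = 2 * ((p + 2) * 2 ^ i) := by ring
      omega
  have h0 := key (p - 1) le_rfl ∅ (empty_subset _) (by simp)
  have h1 : (D ∅).card ≤ E.card := card_le_card (filter_subset _ _)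
  omega

/-- An orientation with prescribed sets of first `p` vertices. -/
theorem exists_orientation {n r p : ℕ} (hn : 0 < n) (hpr : p ≤ r)
    (h : Finset (Fin n) → Finset (Fin n))
    (hh : ∀ E, E.card = r → h E ⊆ E ∧ (h E).card = p) :
    ∃ D : Orientation n r, ∀ E : Finset (Fin n), E.card = r →
      ∀ x ∈ h E, ∃ i : Fin r, (i : ℕ) < p ∧ D.ord E i = x := by
  classical
  have key : ∀ E : Finset (Fin n), ∃ g : Fin r → Fin n, E.card = r →
      (Function.Injective g ∧ (∀ i, g i ∈ E) ∧ ∀ x ∈ h E, ∃ i : Fin r, (i : ℕ) < p ∧ g i = x) := by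
    intro E
    by_cases hE : E.card = r
    · obtain ⟨h1, h2⟩ := hh E hE
      have h3 : (E \ h E).card = r - p := by rw [card_sdiff_of_subset h1, hE, h2]
      refine ⟨fun i => if hi : (i : ℕ) < p then (h E).orderEmbOfFin h2 ⟨i, hi⟩
        else (E \ h E).orderEmbOfFin h3 ⟨i - p, by omega⟩, fun _ => ⟨?_, ?_, ?_⟩⟩
      · intro i j hij
        simp only at hij
        by_cases hi : (i : ℕ) < p <;> by_cases hj : (j : ℕ) < p
        · rw [dif_pos hi, dif_pos hj] at hij
          have := (RelEmbedding.injective _) hij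
          simp only [Fin.mk.injEq] at this
          exact Fin.ext this
        · rw [dif_pos hi, dif_neg hj] at hij
          have a1 := orderEmbOfFin_mem (h E) h2 ⟨i, hi⟩
          have a2 := orderEmbOfFin_mem (E \ h E) h3 ⟨j - p, by omega⟩
          rw [← hij, mem_sdiff] at a2
          exact absurd a1 a2.2
        · rw [dif_neg hi, dif_pos hj] at hij
          have a1 := orderEmbOfFin_mem (h E) h2 ⟨j, hj⟩
          have a2 := orderEmbOfFin_mem (E \ h E) h3 ⟨i - p, by omega⟩
          rw [hij, mem_sdiff] at a2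
          exact absurd a1 a2.2
        · rw [dif_neg hi, dif_neg hj] at hij
          have := (RelEmbedding.injective _) hij
          simp only [Fin.mk.injEq] at this
          apply Fin.ext
          omega
      · intro i
        by_cases hi : (i : ℕ) < p
        · simp only [dif_pos hi]
          exact h1 (orderEmbOfFin_mem _ _ _)
        · simp only [dif_neg hi]
          exact (mem_sdiff.1 (orderEmbOfFin_mem (E \ h E) h3 ⟨i - p, by omega⟩)).1
      · intro x hx
        have : x ∈ Set.range ((h E).orderEmbOfFin h2) := by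
          rw [range_orderEmbOfFin]; exact hx
        obtain ⟨i, rfl⟩ := this
        exact ⟨⟨i, lt_of_lt_of_le i.2 hpr⟩, i.2, by simp⟩
    · exact ⟨fun _ => ⟨0, hn⟩, fun h => absurd h hE⟩
  choose g hg using key
  exact ⟨⟨g, fun E hE => (hg E hE).1, fun E hE => (hg E hE).2.1⟩, fun E hE => (hg E hE).2.2⟩

/-- Counting functions through an injective change of coordinates. -/
theorem card_comp {A B : Type*} [Fintype A] [Fintype B] [DecidableEq A] [DecidableEq B]
    (e : A → B) (he : Function.Injective e) (Q : (A → Bool) → Prop) [DecidablePred Q] :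
    Fintype.card {f : B → Bool // Q (f ∘ e)} * 2 ^ Fintype.card A
      = Fintype.card {g : A → Bool // Q g} * 2 ^ Fintype.card B := by
  classical
  let C := {b : B // ¬ b ∈ Set.range e}
  let Φ : (B → Bool) ≃ (A → Bool) × (C → Bool) :=
    (Equiv.piEquivPiSubtypeProd (fun b => b ∈ Set.range e) (fun _ => Bool)).trans
      (Equiv.prodCongr ((Equiv.ofInjective e he).symm.arrowCongr (Equiv.refl Bool))
        (Equiv.refl _))
  have hΦ : ∀ f, (Φ f).1 = f ∘ e := by
    intro f
    funext a
    simp [Φ, Equiv.arrowCongr, Equiv.piEquivPiSubtypeProd, Equiv.ofInjective]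
  have h1 : Fintype.card {f : B → Bool // Q (f ∘ e)}
      = Fintype.card {g : A → Bool // Q g} * Fintype.card (C → Bool) := by
    rw [← Fintype.card_prod]
    apply Fintype.card_congr
    refine (Equiv.subtypeEquiv Φ (q := fun x => Q x.1) ?_).trans ?_
    · intro f
      rw [hΦ]
    · exact (Equiv.prodSubtypeFstEquivSubtypeProd (p := Q)).symm.symm
  have h2 : Fintype.card (B → Bool) = Fintype.card (A → Bool) * Fintype.card (C → Bool) := by
    rw [← Fintype.card_prod]
    exact Fintype.card_congr Φ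
  simp only [Fintype.card_fun, Fintype.card_bool] at h1 h2 ⊢
  rw [h1, h2]
  ring

theorem card_hit {A₁ A₂ : Type*} [Fintype A₁] [Fintype A₂] [DecidableEq A₁] [DecidableEq A₂]
    (c : A₁ → A₂ → Bool) :
    Fintype.card {g : A₁ × A₂ → Bool // ∀ u, ∃ s, g (u, s) = c u s}
      = (2 ^ Fintype.card A₂ - 1) ^ Fintype.card A₁ := by
  classical
  have h1 : Fintype.card {g : A₁ × A₂ → Bool // ∀ u, ∃ s, g (u, s) = c u s}
      = Fintype.card {G : A₁ → A₂ → Bool // ∀ u, ∃ s, G u s = c u s} := by
    apply Fintype.card_congr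
    exact Equiv.subtypeEquiv (Equiv.curry A₁ A₂ Bool) (fun g => Iff.rfl)
  rw [h1, Fintype.card_subtype]
  have h2 : (univ.filter (fun G : A₁ → A₂ → Bool => ∀ u, ∃ s, G u s = c u s))
      = Fintype.piFinset (fun u => (univ : Finset (A₂ → Bool)).erase (fun s => ! (c u s))) := by
    ext G
    simp only [mem_filter, mem_univ, true_and, Fintype.mem_piFinset, mem_erase, and_true]
    apply forall_congr'
    intro u
    constructor
    · rintro ⟨s, hs⟩ h
      rw [h] at hs
      simp at hs
    · intro h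
      by_contra hc
      push Not at hc
      apply h
      funext s
      have := hc s
      revert this
      cases G u s <;> cases c u s <;> simp
  rw [h2, Fintype.card_piFinset]
  simp [card_erase_of_mem]

/-- Erdős: tournaments without a dominating `k`-set. -/
theorem exists_tournament (n k : ℕ)
    (hlt : n.choose k * (2 ^ k - 1) ^ (n - k) < (2 ^ k) ^ (n - k)) :
    ∃ T : Fin n → Fin n → Prop, (∀ u v, u ≠ v → (T u v ↔ ¬ T v u)) ∧
      ∀ S : Finset (Fin n), S.card = k → ∃ u, u ∉ S ∧ ∀ s ∈ S, ¬ T s u := by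
  classical
  let T : (Sym2 (Fin n) → Bool) → Fin n → Fin n → Prop := fun f u v => f s(u, v) = decide (u < v)
  have hT : ∀ f, ∀ u v, u ≠ v → (T f u v ↔ ¬ T f v u) := by
    intro f u v huv
    simp only [T]
    rw [Sym2.eq_swap (a := v) (b := u)]
    rcases lt_or_gt_of_ne huv with h | h
    · have : ¬ v < u := not_lt.2 h.le
      simp [h, this]
    · have : ¬ u < v := not_lt.2 h.le
      simp [h, this]
  let B : Finset (Fin n) → Finset (Sym2 (Fin n) → Bool) := fun S =>
    univ.filter (fun f => ∀ u, u ∉ S → ∃ s ∈ S, T f s u)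
  set N := 2 ^ Fintype.card (Sym2 (Fin n)) with hN
  have hB : ∀ S : Finset (Fin n), S.card = k →
      (B S).card * (2 ^ k) ^ (n - k) = (2 ^ k - 1) ^ (n - k) * N := by
    intro S hS
    let A₁ := {u : Fin n // u ∉ S}
    let A₂ := {s : Fin n // s ∈ S}
    let e : A₁ × A₂ → Sym2 (Fin n) := fun x => s(x.2.1, x.1.1)
    have he : Function.Injective e := by
      rintro ⟨⟨u, hu⟩, ⟨s, hs⟩⟩ ⟨⟨u', hu'⟩, ⟨s', hs'⟩⟩ h
      simp only [e, Sym2.eq_iff] at h
      rcases h with ⟨h1, h2⟩ | ⟨h1, h2⟩
      · subst h1; subst h2; rfl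
      · subst h1; exact absurd hs hu'
    have hA1 : Fintype.card A₁ = n - k := by
      simp [A₁, Fintype.card_subtype_compl, hS]
    have hA2 : Fintype.card A₂ = k := by
      simp [A₂, hS]
    have h1 := card_comp e he
      (fun g => ∀ u : A₁, ∃ s : A₂, g (u, s) = decide (s.1 < u.1))
    rw [card_hit (fun (u : A₁) (s : A₂) => decide (s.1 < u.1)), Fintype.card_prod, hA1, hA2,
      mul_comm (n - k) k, pow_mul] at h1
    rw [← h1]
    congr 1
    rw [Fintype.card_subtype]
    congr 1
    ext f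
    simp only [B, mem_filter, mem_univ, true_and, T, e, Function.comp]
    constructor
    · intro hf u
      obtain ⟨s, hs, hsu⟩ := hf u.1 u.2
      exact ⟨⟨s, hs⟩, hsu⟩
    · intro hf u hu
      obtain ⟨s, hsu⟩ := hf ⟨u, hu⟩
      exact ⟨s.1, s.2, hsu⟩
  have hcard : ((powersetCard k (univ : Finset (Fin n))).biUnion B).card < N := by
    have h1 : ((powersetCard k (univ : Finset (Fin n))).biUnion B).card * (2 ^ k) ^ (n - k)
        ≤ n.choose k * ((2 ^ k - 1) ^ (n - k) * N) := by
      calc ((powersetCard k (univ : Finset (Fin n))).biUnion B).card * (2 ^ k) ^ (n - k)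
          ≤ (∑ S ∈ powersetCard k (univ : Finset (Fin n)), (B S).card) * (2 ^ k) ^ (n - k) :=
            Nat.mul_le_mul_right _ card_biUnion_le
        _ = ∑ S ∈ powersetCard k (univ : Finset (Fin n)), (B S).card * (2 ^ k) ^ (n - k) := by
            rw [sum_mul]
        _ = ∑ S ∈ powersetCard k (univ : Finset (Fin n)), (2 ^ k - 1) ^ (n - k) * N :=
            sum_congr rfl (fun S hS => hB S (mem_powersetCard.1 hS).2)
        _ = n.choose k * ((2 ^ k - 1) ^ (n - k) * N) := by
            rw [sum_const, card_powersetCard, card_univ, Fintype.card_fin, smul_eq_mul]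
    have hNpos : 0 < N := by positivity
    have h2 : n.choose k * ((2 ^ k - 1) ^ (n - k) * N) < (2 ^ k) ^ (n - k) * N := by
      rw [← mul_assoc]
      exact Nat.mul_lt_mul_of_pos_right hlt hNpos
    have h3 := lt_of_le_of_lt h1 h2
    rw [mul_comm ((2 ^ k) ^ (n - k)) N] at h3
    exact lt_of_mul_lt_mul_right h3 (Nat.zero_le _)
  have hex : ∃ f, f ∉ (powersetCard k (univ : Finset (Fin n))).biUnion B := by
    by_contra hc
    push Not at hc
    have : (powersetCard k (univ : Finset (Fin n))).biUnion B = univ := eq_univ_iff_forall.2 hc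
    rw [this, card_univ, Fintype.card_fun, Fintype.card_bool] at hcard
    exact lt_irrefl _ hcard
  obtain ⟨f, hf⟩ := hex
  refine ⟨T f, hT f, ?_⟩
  intro S hS
  simp only [mem_biUnion, mem_powersetCard, subset_univ, true_and, not_exists, not_and] at hf
  have := hf S hS
  simp only [B, mem_filter, mem_univ, true_and] at this
  push Not at this
  exact this

theorem two_mul_le_two_pow (k : ℕ) (hk : 7 ≤ k) : 2 * (k * (k + 1)) + 1 ≤ 2 ^ k := by
  induction k, hk using Nat.le_induction with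
  | base => norm_num
  | succ k hk ih =>
    rw [pow_succ]
    nlinarith

/-- The numerical estimate in the union bound. -/
theorem union_bound (n k : ℕ) (hk : 7 ≤ k) (h1 : 4 ^ k ≤ n) (h2 : n < 4 ^ (k + 1)) :
    n.choose k * (2 ^ k - 1) ^ (n - k) < (2 ^ k) ^ (n - k) := by
  have hk2 : k ≤ 2 ^ k := Nat.lt_two_pow_self.le
  have h4 : (4 : ℕ) ^ k = 2 ^ k * 2 ^ k := by rw [← mul_pow]; norm_num
  have hkn : k ≤ n := by
    have : 1 ≤ 2 ^ k := Nat.one_le_two_pow
    nlinarith
  have hpos : (0 : ℝ) < 2 ^ k := by positivity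
  have hreal : ((n.choose k : ℕ) : ℝ) * ((2 : ℝ) ^ k - 1) ^ (n - k)
      < ((2 : ℝ) ^ k) ^ (n - k) := by
    have e1 : ((2 : ℝ) ^ k - 1) ≤ 2 ^ k * Real.exp (-(1 / 2 ^ k)) := by
      have := Real.add_one_le_exp (-(1 / (2 : ℝ) ^ k))
      have h5 : ((2 : ℝ) ^ k - 1) = 2 ^ k * (-(1 / (2 : ℝ) ^ k) + 1) := by field_simp; ring
      rw [h5]
      exact mul_le_mul_of_nonneg_left this hpos.le
    have e2 : ((2 : ℝ) ^ k - 1) ^ (n - k)
        ≤ ((2 : ℝ) ^ k) ^ (n - k) * Real.exp (-(((n - k : ℕ) : ℝ) / 2 ^ k)) := by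
      have h0 : (0 : ℝ) ≤ 2 ^ k - 1 := by
        have : (1 : ℝ) ≤ 2 ^ k := one_le_pow₀ (by norm_num)
        linarith
      calc ((2 : ℝ) ^ k - 1) ^ (n - k)
          ≤ (2 ^ k * Real.exp (-(1 / 2 ^ k))) ^ (n - k) := pow_le_pow_left₀ h0 e1 _
        _ = ((2 : ℝ) ^ k) ^ (n - k) * Real.exp (-(((n - k : ℕ) : ℝ) / 2 ^ k)) := by
            rw [mul_pow, ← Real.exp_nat_mul]
            congr 2
            ring
    have e3 : (2 : ℝ) ^ k - 1 ≤ ((n - k : ℕ) : ℝ) / 2 ^ k := by
      rw [le_div_iff₀ hpos]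
      have h6 : ((2 ^ k * 2 ^ k : ℕ) : ℝ) ≤ (n : ℝ) := by exact_mod_cast (h4 ▸ h1)
      have h7 : ((k : ℕ) : ℝ) ≤ ((2 ^ k : ℕ) : ℝ) := by exact_mod_cast hk2
      rw [Nat.cast_sub hkn]
      push_cast at h6 h7
      nlinarith
    have e4 : ((n.choose k : ℕ) : ℝ) ≤ Real.exp (2 * (k * (k + 1))) := by
      have h8 : ((n.choose k : ℕ) : ℝ) ≤ ((n ^ k : ℕ) : ℝ) := by
        exact_mod_cast Nat.choose_le_pow n k
      have h9 : ((n ^ k : ℕ) : ℝ) ≤ (((4 ^ (k + 1)) ^ k : ℕ) : ℝ) := by
        exact_mod_cast Nat.pow_le_pow_left h2.le k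
      have h10 : (((4 ^ (k + 1)) ^ k : ℕ) : ℝ) = (4 : ℝ) ^ (k * (k + 1)) := by
        push_cast
        rw [← pow_mul, mul_comm k (k + 1)]
      have h11 : (4 : ℝ) ≤ Real.exp 2 := by
        have h12 : (2 : ℝ) ≤ Real.exp 1 := by
          have := Real.add_one_le_exp (1 : ℝ)
          linarith
        have h13 : Real.exp 2 = Real.exp 1 * Real.exp 1 := by
          rw [← Real.exp_add]; norm_num
        nlinarith
      have h14 : (4 : ℝ) ^ (k * (k + 1)) ≤ (Real.exp 2) ^ (k * (k + 1)) :=
        pow_le_pow_left₀ (by norm_num) h11 _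
      have h15 : (Real.exp 2) ^ (k * (k + 1)) = Real.exp (2 * (k * (k + 1))) := by
        rw [← Real.exp_nat_mul]
        congr 1
        push_cast
        ring
      linarith
    have e5 : (2 : ℝ) * (k * (k + 1)) < ((n - k : ℕ) : ℝ) / 2 ^ k := by
      have h16 : ((2 * (k * (k + 1)) + 1 : ℕ) : ℝ) ≤ ((2 ^ k : ℕ) : ℝ) := by
        exact_mod_cast two_mul_le_two_pow k hk
      have h17 : ((2 * (k * (k + 1)) + 1 : ℕ) : ℝ) < ((2 ^ k : ℕ) : ℝ) ∨
          ((2 * (k * (k + 1)) + 1 : ℕ) : ℝ) = ((2 ^ k : ℕ) : ℝ) := lt_or_eq_of_le h16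
      rcases h17 with h17 | h17
      · push_cast at h17
        linarith
      · exfalso
        have h18 : (2 * (k * (k + 1)) + 1 : ℕ) = 2 ^ k := by exact_mod_cast h17
        have h19 : 2 ∣ 2 ^ k := dvd_pow_self 2 (by omega)
        omega
    have hposp : (0 : ℝ) < ((2 : ℝ) ^ k) ^ (n - k) := by positivity
    calc ((n.choose k : ℕ) : ℝ) * ((2 : ℝ) ^ k - 1) ^ (n - k)
        ≤ Real.exp (2 * (k * (k + 1)))
          * (((2 : ℝ) ^ k) ^ (n - k) * Real.exp (-(((n - k : ℕ) : ℝ) / 2 ^ k))) := by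
          apply mul_le_mul e4 e2
          · apply pow_nonneg
            have : (1 : ℝ) ≤ 2 ^ k := one_le_pow₀ (by norm_num)
            linarith
          · positivity
      _ = ((2 : ℝ) ^ k) ^ (n - k)
          * Real.exp (2 * (k * (k + 1)) + -(((n - k : ℕ) : ℝ) / 2 ^ k)) := by
          rw [Real.exp_add]; ring
      _ < ((2 : ℝ) ^ k) ^ (n - k) * 1 := by
          apply mul_lt_mul_of_pos_left _ hposp
          rw [Real.exp_lt_one_iff]
          linarith
      _ = ((2 : ℝ) ^ k) ^ (n - k) := mul_one _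
  have h1p : 1 ≤ 2 ^ k := Nat.one_le_two_pow
  have hcast : (((n.choose k * (2 ^ k - 1) ^ (n - k) : ℕ)) : ℝ)
      < (((2 ^ k) ^ (n - k) : ℕ) : ℝ) := by
    push_cast [Nat.cast_sub h1p]
    exact hreal
  exact_mod_cast hcast

/-- The new lower bound. -/
theorem lower {n r p : ℕ} (hp : 1 ≤ p) (hpr : p ≤ r) (hr : r + 2 ≤ (p + 2) * 2 ^ (p - 1))
    (hn : 4 ^ 7 ≤ n) :
    Real.log n / Real.log 4 ≤ (GammaUp p n r : ℝ) := by
  classical
  set k := Nat.log 4 n with hk
  have hn0 : n ≠ 0 := by
    rintro rfl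
    norm_num at hn
  have hk7 : 7 ≤ k := (Nat.le_log_iff_pow_le (by norm_num) hn0).2 hn
  have h1 : 4 ^ k ≤ n := Nat.pow_log_le_self 4 hn0
  have h2 : n < 4 ^ (k + 1) := Nat.lt_pow_succ_log_self (by norm_num) n
  have hkn : k ≤ n := by
    have h3 : k < 2 ^ k := Nat.lt_two_pow_self
    have h4 : (2 : ℕ) ^ k ≤ 4 ^ k := Nat.pow_le_pow_left (by norm_num) k
    omega
  obtain ⟨T, hT, hTS⟩ := exists_tournament n k (union_bound n k hk7 h1 h2)
  have hex : ∀ E : Finset (Fin n), ∃ A : Finset (Fin n), E.card = r →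
      (A ⊆ E ∧ A.card = p) ∧ ∀ u ∈ E, u ∉ A → ∃ s ∈ A, T s u := by
    intro E
    by_cases hE : E.card = r
    · obtain ⟨A, hA, hAc, hAd⟩ := tournament_dom T hT p hp E (by omega)
      obtain ⟨A', hAA', hA'E, hA'c⟩ := exists_subsuperset_card_eq hA hAc (by omega)
      refine ⟨A', fun _ => ⟨⟨hA'E, hA'c⟩, fun u hu huA => ?_⟩⟩
      obtain ⟨s, hs, hsu⟩ := hAd u hu (fun h => huA (hAA' h))
      exact ⟨s, hAA' hs, hsu⟩
    · exact ⟨∅, fun h => absurd h hE⟩
  choose h hh using hex
  obtain ⟨D, hD⟩ := exists_orientation (Nat.pos_of_ne_zero hn0) hpr h (fun E hE => (hh E hE).1)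
  have hdom : ∀ S : Finset (Fin n), IsPDominating D p S → k + 1 ≤ S.card := by
    intro S hS
    by_contra hc
    have hSk : S.card ≤ k := by omega
    obtain ⟨S', hSS', -, hS'c⟩ := exists_subsuperset_card_eq (subset_univ S) hSk (by simpa using hkn)
    obtain ⟨u, huS', hu⟩ := hTS S' hS'c
    obtain ⟨E, hEc, huE, hEi⟩ := hS u (fun h => huS' (hSS' h))
    have hES : h E ⊆ S := by
      intro x hx
      obtain ⟨i, hi, rfl⟩ := hD E hEc x hx
      exact hEi i hi
    obtain ⟨s, hs, hsu⟩ := (hh E hEc).2 u huE (fun h => huS' (hSS' (hES h)))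
    exact hu s (hSS' (hES hs)) hsu
  have hfin : k + 1 ≤ GammaUp p n r := le_GammaUp_of D hdom
  have hlog4 : 0 < Real.log 4 := Real.log_pos (by norm_num)
  rw [div_le_iff₀ hlog4]
  have h5 : Real.log n ≤ Real.log ((4 : ℝ) ^ (k + 1)) := by
    apply Real.log_le_log
    · exact_mod_cast Nat.pos_of_ne_zero hn0
    · exact_mod_cast h2.le
  rw [Real.log_pow] at h5
  have h6 : ((k + 1 : ℕ) : ℝ) ≤ (GammaUp p n r : ℝ) := by exact_mod_cast hfin
  nlinarith

end Pool.Agent.Helper77.PDomTheta
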