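import Pool.Agent.Helper85.IW.Statements

/-!
# Module IW_F2 (MP_3dd6d4_an): the case `p = 2`
-/

set_option autoImplicit false
set_option maxSynthPendingDepth 3

open MeasureTheory Complex Filter Topology
open scoped ENNReal NNReal ComplexConjugate

namespace Helper85.IW.M_F2

open Helper72.BA

theorem eLpNorm_two_eq (h : ℂ → ℂ) :
    eLpNorm h 2 volume = (∫⁻ z, ‖h z‖ₑ ^ 2) ^ ((1 : ℝ) / 2) := by
  rw [eLpNorm_eq_lintegral_rpow_enorm_toReal (by norm_num) (by norm_num)]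
  simp

theorem norm_gT_le (f : ℂ → ℂ) (ξ : ℂ) : ‖gT f ξ‖ₑ ≤ ‖gf f ξ‖ₑ := by
  rw [gT, enorm_mul]
  have h1 : ‖starRingEnd ℂ ξ / ξ‖ₑ ≤ 1 := by
    have h2 : ‖starRingEnd ℂ ξ / ξ‖ ≤ 1 := by
      rw [norm_div, Complex.norm_conj]
      exact div_self_le_one _
    have h3 : ‖starRingEnd ℂ ξ / ξ‖ₑ = ENNReal.ofReal ‖starRingEnd ℂ ξ / ξ‖ :=
      (ofReal_norm _).symm
    rw [h3]
    exact ENNReal.ofReal_le_one.2 h2
  calc ‖starRingEnd ℂ ξ / ξ‖ₑ * ‖gf f ξ‖ₑ ≤ 1 * ‖gf f ξ‖ₑ := by gcongr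
    _ = ‖gf f ξ‖ₑ := one_mul _

theorem main (_h1 : StA1) (h5 : StA5) (h6 : StA6) : StF2 := by
  intro f
  obtain ⟨r1, r2, _, e1, e2⟩ := h6 f
  have key : ∀ g : ℂ → ℂ, Rap g → ∫⁻ z, ‖HE g 0 z‖ₑ ^ 2 = ∫⁻ ξ, ‖g ξ‖ₑ ^ 2 := by
    intro g hg
    rw [h5 g hg 0]
    simp
  have a1 := key _ r1
  have a2 := key _ r2
  rw [eLpNorm_two_eq, eLpNorm_two_eq]
  simp only [e1] at a1
  simp only [e2] at a2
  rw [a1, a2]
  gcongr with ξ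
  exact norm_gT_le _ _

end Helper85.IW.M_F2
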