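import Pool.Agent.Helper85.IW.Statements

/-!
# Module IW_A4 (MP_3dd6d4_an): time derivative of the heat extension
-/

set_option autoImplicit false
set_option maxSynthPendingDepth 3

open MeasureTheory Complex Filter Topology
open scoped ENNReal NNReal ComplexConjugate

namespace Helper85.IW.M_A4

open Helper72.BA

theorem norm_ch (z ξ : ℂ) : ‖ch z ξ‖ = 1 := by
  rw [ch, show (2 * Real.pi * I * (z.re * ξ.re + z.im * ξ.im : ℝ) : ℂ) =
    ((2 * Real.pi * (z.re * ξ.re + z.im * ξ.im) : ℝ) : ℂ) * I by push_cast; ring]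
  exact Complex.norm_exp_ofReal_mul_I _

theorem meas_ch (z : ℂ) : Measurable (ch z) := by
  have : Continuous (ch z) := by
    unfold ch
    fun_prop
  exact this.measurable

theorem meas_integrand {g : ℂ → ℂ} (hg : Measurable g) (z : ℂ) (s : ℝ) :
    Measurable fun ξ => ch z ξ * (((Real.exp (-(max s 0) * ‖ξ‖ ^ 2) : ℝ) : ℂ) * g ξ) := by
  have h1 : Continuous fun ξ : ℂ => ((Real.exp (-(max s 0) * ‖ξ‖ ^ 2) : ℝ) : ℂ) := by fun_prop
  exact (meas_ch z).mul (h1.measurable.mul hg)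

theorem exp_le_one' (s : ℝ) (ξ : ℂ) : Real.exp (-(max s 0) * ‖ξ‖ ^ 2) ≤ 1 := by
  rw [Real.exp_le_one_iff]
  have : 0 ≤ max s 0 := le_max_right _ _
  nlinarith [sq_nonneg ‖ξ‖]

theorem norm_integrand_le (g : ℂ → ℂ) (z : ℂ) (s : ℝ) (ξ : ℂ) :
    ‖ch z ξ * (((Real.exp (-(max s 0) * ‖ξ‖ ^ 2) : ℝ) : ℂ) * g ξ)‖ ≤ ‖g ξ‖ := by
  rw [norm_mul, norm_ch, one_mul, norm_mul, Complex.norm_real, Real.norm_eq_abs,
    abs_of_nonneg (Real.exp_nonneg _)]
  calc Real.exp (-(max s 0) * ‖ξ‖ ^ 2) * ‖g ξ‖ ≤ 1 * ‖g ξ‖ := by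
        gcongr
        exact exp_le_one' s ξ
    _ = ‖g ξ‖ := one_mul _

theorem main (h1 : StA1) : StA4 := by
  intro g hg t ht z
  obtain ⟨hi, _, hk⟩ := h1.1 g hg
  have hm2 : Measurable fun ξ : ℂ => (-(‖ξ‖ ^ 2 : ℝ) : ℂ) * g ξ := by
    have h2 : Continuous fun ξ : ℂ => (-(‖ξ‖ ^ 2 : ℝ) : ℂ) := by fun_prop
    exact h2.measurable.mul hg.meas
  have := (hasDerivAt_integral_of_dominated_loc_of_deriv_le (μ := volume) (x₀ := t)
    (s := Set.Ioi (0 : ℝ))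
    (F := fun s ξ => ch z ξ * (((Real.exp (-(max s 0) * ‖ξ‖ ^ 2) : ℝ) : ℂ) * g ξ))
    (F' := fun s ξ => ch z ξ * (((Real.exp (-(max s 0) * ‖ξ‖ ^ 2) : ℝ) : ℂ) *
      ((-(‖ξ‖ ^ 2 : ℝ) : ℂ) * g ξ)))
    (bound := fun ξ => ‖ξ‖ ^ 2 * ‖g ξ‖)
    (Ioi_mem_nhds ht)
    (Eventually.of_forall fun s => (meas_integrand hg.meas z s).aestronglyMeasurable)
    (hi.norm.mono' (meas_integrand hg.meas z t).aestronglyMeasurable
      (Eventually.of_forall fun ξ => norm_integrand_le g z t ξ))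
    (meas_integrand hm2 z t).aestronglyMeasurable
    (Eventually.of_forall fun ξ s _ => by
      refine (norm_integrand_le (fun ξ => (-(‖ξ‖ ^ 2 : ℝ) : ℂ) * g ξ) z s ξ).trans ?_
      simp only [norm_mul, norm_neg, Complex.norm_real, norm_pow, norm_norm]
      exact le_rfl)
    (hk 2)
    (Eventually.of_forall fun ξ s hs => ?_)).2
  · exact this
  · have hs0 : (0 : ℝ) < s := hs
    have e1 : HasDerivAt (fun u : ℝ => Real.exp (-u * ‖ξ‖ ^ 2))
        (Real.exp (-s * ‖ξ‖ ^ 2) * (-1 * ‖ξ‖ ^ 2)) s :=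
      (((hasDerivAt_id s).neg).mul_const (‖ξ‖ ^ 2)).exp
    have e2 : (fun u : ℝ => Real.exp (-(max u 0) * ‖ξ‖ ^ 2)) =ᶠ[𝓝 s]
        fun u : ℝ => Real.exp (-u * ‖ξ‖ ^ 2) := by
      filter_upwards [Ioi_mem_nhds hs0] with u hu
      rw [max_eq_left (le_of_lt hu)]
    have e3 := (e1.congr_of_eventuallyEq e2).ofReal_comp
    have e4 := (e3.mul_const (g ξ)).const_mul (ch z ξ)
    refine e4.congr_deriv ?_
    rw [max_eq_left hs0.le]
    push_cast
    ring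

end Helper85.IW.M_A4
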