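import Mathlib
import Pool.Agent.Helper39.PDom

set_option autoImplicit false

/-!
Upper bound `O(log n)` for the directed `p`-domination number of every orientation of the
complete `r`-uniform hypergraph on `n` vertices, `p < r`.
-/

namespace Pool.Agent.Helper77.PDomTheta

open Pool.Agent.Helper39 Finset

/-- Averaging: in every large set `W` there is an `(r-1)`-set `A` which dominates many
vertices of `W`. -/
theorem exists_good {n r : ℕ} (hr : 1 ≤ r) (D : Orientation n r) (W : Finset (Fin n))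
    (hW : r ≤ W.card) :
    ∃ A U : Finset (Fin n), A ⊆ W ∧ A.card = r - 1 ∧ U ⊆ W \ A ∧
      (W.card - (r - 1)) ≤ r * U.card ∧
      ∀ u ∈ U, ∃ E : Finset (Fin n), E.card = r ∧ u ∈ E ∧
        ∀ i : Fin r, (i : ℕ) < r - 1 → D.ord E i ∈ A := by
  classical
  let last : Fin r := ⟨r - 1, by omega⟩
  let f : Finset (Fin n) → Finset (Fin n) := fun E => E.erase (D.ord E last)
  have hmaps : ∀ E ∈ powersetCard r W, f E ∈ powersetCard (r - 1) W := by
    intro E hE
    rw [mem_powersetCard] at hE ⊢
    refine ⟨(erase_subset _ _).trans hE.1, ?_⟩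
    rw [card_erase_of_mem (D.mem E hE.2 last), hE.2]
  have hne : (powersetCard (r - 1) W).Nonempty := powersetCard_nonempty.2 (by omega)
  have hchoose : W.card.choose r * r = W.card.choose (r - 1) * (W.card - (r - 1)) := by
    obtain ⟨s, rfl⟩ : ∃ s, r = s + 1 := ⟨r - 1, by omega⟩
    simpa using Nat.choose_succ_right_eq W.card s
  have hb : (powersetCard (r - 1) W).card • (((W.card - (r - 1) : ℕ) : ℚ) / r)
      ≤ ((powersetCard r W).card : ℚ) := by
    rw [card_powersetCard, card_powersetCard, nsmul_eq_mul]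
    have hr0 : (0 : ℚ) < r := by exact_mod_cast hr
    rw [mul_div_assoc', div_le_iff₀ hr0]
    have : ((W.card.choose r * r : ℕ) : ℚ)
        = ((W.card.choose (r - 1) * (W.card - (r - 1)) : ℕ) : ℚ) := by rw [hchoose]
    push_cast at this ⊢
    linarith
  obtain ⟨A, hA, hAb⟩ := exists_le_card_fiber_of_nsmul_le_card_of_maps_to hmaps hne hb
  rw [mem_powersetCard] at hA
  have hinj : Set.InjOn (fun E => D.ord E last)
      ((powersetCard r W).filter (fun E => f E = A) : Set (Finset (Fin n))) := by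
    intro E hE E' hE' h
    simp only [coe_filter, Set.mem_ofPred_eq, mem_powersetCard] at hE hE'
    have h1 : insert (D.ord E last) (f E) = E := insert_erase (D.mem E hE.1.2 last)
    have h2 : insert (D.ord E' last) (f E') = E' := insert_erase (D.mem E' hE'.1.2 last)
    rw [← h1, ← h2, hE.2, hE'.2]
    simp only at h
    rw [h]
  refine ⟨A, ((powersetCard r W).filter (fun E => f E = A)).image (fun E => D.ord E last),
    hA.1, hA.2, ?_, ?_, ?_⟩
  · intro u hu
    rw [mem_image] at hu
    obtain ⟨E, hE, rfl⟩ := hu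
    rw [mem_filter, mem_powersetCard] at hE
    rw [mem_sdiff]
    refine ⟨hE.1.1 (D.mem E hE.1.2 last), ?_⟩
    rw [← hE.2]
    exact notMem_erase _ _
  · rw [card_image_of_injOn hinj]
    have hr0 : (0 : ℚ) < r := by exact_mod_cast hr
    rw [div_le_iff₀ hr0] at hAb
    have : ((W.card - (r - 1) : ℕ) : ℚ)
        ≤ ((r * ((powersetCard r W).filter (fun E => f E = A)).card : ℕ) : ℚ) := by
      push_cast
      linarith
    exact_mod_cast this
  · intro u hu
    rw [mem_image] at hu
    obtain ⟨E, hE, rfl⟩ := hu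
    rw [mem_filter, mem_powersetCard] at hE
    refine ⟨E, hE.1.2, D.mem E hE.1.2 last, ?_⟩
    intro i hi
    rw [← hE.2, mem_erase]
    refine ⟨?_, D.mem E hE.1.2 i⟩
    intro h
    have := D.inj E hE.1.2 h
    rw [this] at hi
    simp [last] at hi

/-- Greedy algorithm. -/
theorem greedy {n r p : ℕ} (hr : 1 ≤ r) (hp : p ≤ r - 1) (D : Orientation n r) (t : ℕ) :
    ∀ W : Finset (Fin n), W.card * (r - 1) ^ t ≤ r * r ^ t →
    ∃ S : Finset (Fin n), S.card ≤ r + (r - 1) * t ∧
      ∀ u ∈ W, u ∉ S → ∃ E : Finset (Fin n), E.card = r ∧ u ∈ E ∧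
        ∀ i : Fin r, (i : ℕ) < p → D.ord E i ∈ S := by
  classical
  induction t with
  | zero =>
    intro W hW
    refine ⟨W, by simpa using hW, fun u hu hu' => absurd hu hu'⟩
  | succ t ih =>
    intro W hW
    by_cases hWr : W.card ≤ r
    · exact ⟨W, le_trans hWr (Nat.le_add_right _ _), fun u hu hu' => absurd hu hu'⟩
    · obtain ⟨A, U, hAW, hAc, hUW, hUc, hU⟩ := exists_good hr D W (by omega)
      have hcard : ((W \ A) \ U).card = W.card - (r - 1) - U.card := by
        rw [card_sdiff_of_subset hUW, card_sdiff_of_subset hAW, hAc]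
      have hle : ((W \ A) \ U).card * r ≤ W.card * (r - 1) := by
        rw [hcard]
        obtain ⟨s, rfl⟩ : ∃ s, r = s + 1 := ⟨r - 1, by omega⟩
        simp only [Nat.add_sub_cancel] at hUc ⊢
        zify
        by_cases h1 : U.card ≤ W.card - s
        · rw [Nat.cast_sub h1, Nat.cast_sub (by omega : s ≤ W.card)]
          have h2 : ((W.card - s : ℕ) : ℤ) ≤ (((s + 1) * U.card : ℕ) : ℤ) := by
            exact_mod_cast hUc
          rw [Nat.cast_sub (by omega : s ≤ W.card)] at h2
          push_cast at h2 ⊢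
          nlinarith
        · rw [Nat.sub_eq_zero_of_le (by omega)]
          simp only [Nat.cast_zero, zero_mul]
          positivity
      have hW' : ((W \ A) \ U).card * (r - 1) ^ t ≤ r * r ^ t := by
        have h1 : ((W \ A) \ U).card * (r - 1) ^ t * r ≤ r * r ^ t * r := by
          calc ((W \ A) \ U).card * (r - 1) ^ t * r
              = ((W \ A) \ U).card * r * (r - 1) ^ t := by ring
            _ ≤ W.card * (r - 1) * (r - 1) ^ t := Nat.mul_le_mul_right _ hle
            _ = W.card * (r - 1) ^ (t + 1) := by ring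
            _ ≤ r * r ^ (t + 1) := hW
            _ = r * r ^ t * r := by ring
        exact Nat.le_of_mul_le_mul_right h1 (by omega)
      obtain ⟨S, hSc, hS⟩ := ih _ hW'
      refine ⟨A ∪ S, ?_, ?_⟩
      · calc (A ∪ S).card ≤ A.card + S.card := card_union_le _ _
          _ ≤ (r - 1) + (r + (r - 1) * t) := by rw [hAc]; omega
          _ = r + (r - 1) * (t + 1) := by ring
      · intro u hu hu'
        rw [mem_union, not_or] at hu'
        by_cases huU : u ∈ U
        · obtain ⟨E, hE, huE, hEi⟩ := hU u huU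
          exact ⟨E, hE, huE, fun i hi => mem_union_left _ (hEi i (by omega))⟩
        · obtain ⟨E, hE, huE, hEi⟩ := hS u
            (mem_sdiff.2 ⟨mem_sdiff.2 ⟨hu, hu'.1⟩, huU⟩) hu'.2
          exact ⟨E, hE, huE, fun i hi => mem_union_right _ (hEi i hi)⟩

/-- The known upper bound, with explicit constants. -/
theorem GammaUp_le_log {n r p : ℕ} (hr : 1 ≤ r) (hp : p ≤ r - 1) (hn : 1 ≤ n) :
    (GammaUp p n r : ℝ) ≤ 2 * r + r ^ 2 * Real.log n := by
  have hn0 : (0 : ℝ) < n := by exact_mod_cast hn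
  have hr0 : (0 : ℝ) < r := by exact_mod_cast hr
  have hlog : 0 ≤ Real.log n := Real.log_natCast_nonneg n
  set t : ℕ := ⌈r * Real.log n⌉₊ with ht
  have ht1 : r * Real.log n ≤ t := Nat.le_ceil _
  have ht2 : (t : ℝ) < r * Real.log n + 1 := Nat.ceil_lt_add_one (by positivity)
  have hkey : n * (r - 1) ^ t ≤ r * r ^ t := by
    have h1 : (1 - 1 / (r : ℝ)) ≤ Real.exp (-(1 / (r : ℝ))) := by
      have := Real.add_one_le_exp (-(1 / (r : ℝ)))
      linarith
    have h2 : (1 - 1 / (r : ℝ)) ^ t ≤ 1 / n := by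
      have h0 : 0 ≤ 1 - 1 / (r : ℝ) := by
        rw [sub_nonneg, div_le_one hr0]
        exact_mod_cast hr
      calc (1 - 1 / (r : ℝ)) ^ t ≤ (Real.exp (-(1 / (r : ℝ)))) ^ t := pow_le_pow_left₀ h0 h1 t
        _ = Real.exp (-(t / r)) := by
          rw [← Real.exp_nat_mul]; congr 1; ring
        _ ≤ Real.exp (-Real.log n) := by
          apply Real.exp_le_exp.2
          rw [neg_le_neg_iff, le_div_iff₀ hr0]
          linarith
        _ = 1 / n := by rw [Real.exp_neg, Real.exp_log hn0]; simp
    have h3 : ((n * (r - 1) ^ t : ℕ) : ℝ) ≤ ((r * r ^ t : ℕ) : ℝ) := by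
      push_cast [Nat.cast_sub hr]
      have h4 : ((r : ℝ) - 1) = r * (1 - 1 / r) := by field_simp
      rw [h4, mul_pow]
      have h5 : (n : ℝ) * ((r : ℝ) ^ t * (1 - 1 / (r : ℝ)) ^ t) ≤ n * ((r : ℝ) ^ t * (1 / n)) := by
        gcongr
      have h6 : (n : ℝ) * ((r : ℝ) ^ t * (1 / n)) = r ^ t := by field_simp
      have h7 : (r : ℝ) ^ t ≤ r * r ^ t := by
        have : (1 : ℝ) ≤ r := by exact_mod_cast hr
        have h8 : (0 : ℝ) < (r : ℝ) ^ t := by positivity
        nlinarith
      linarith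
    exact_mod_cast h3
  have hb : GammaUp p n r ≤ r + (r - 1) * t := by
    apply GammaUp_le_of
    intro D
    obtain ⟨S, hSc, hS⟩ := greedy hr hp D t univ (by simpa using hkey)
    exact ⟨S, fun u hu => hS u (mem_univ u) hu, hSc⟩
  have hb' : (GammaUp p n r : ℝ) ≤ ((r + (r - 1) * t : ℕ) : ℝ) := by exact_mod_cast hb
  push_cast [Nat.cast_sub hr] at hb'
  have hr1 : (1 : ℝ) ≤ r := by exact_mod_cast hr
  nlinarith [mul_nonneg hr0.le hlog]

end Pool.Agent.Helper77.PDomTheta
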