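import Mathlib
import Pool.Agent.Helper39.PDom
import Pool.Agent.Helper77.PDomUpper
import Pool.Agent.Helper77.PDomLower

set_option autoImplicit false

/-!
# MP_869403_co

For fixed `2 ≤ p < r` with `r ≤ (p+2) * 2^(p-1) - 2` the upper directed `p`-domination number
of the complete `r`-uniform hypergraph `H(n,r)` is of order `log n`. In particular
(`p = r - 1`, all `r ≥ 3`) the upper directed `(r-1)`-domination number of `H(n,r)` is of
order `log n`.
-/

namespace Pool.Agent.Helper77.ThetaLog

open Pool.Agent.Helper39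

theorem result (r p : ℕ) (hp : 2 ≤ p) (hpr : p ≤ r - 1) (hr : r ≤ (p + 2) * 2 ^ (p - 1) - 2) :
    (fun n : ℕ => (GammaUp p n r : ℝ)) =Θ[Filter.atTop] (fun n : ℕ => Real.log (n : ℝ)) := by
  have h2 : 2 ≤ (p + 2) * 2 ^ (p - 1) := by
    have : 1 ≤ 2 ^ (p - 1) := Nat.one_le_two_pow
    nlinarith
  by_cases hr1 : 1 ≤ r
  · constructor
    · rw [Asymptotics.isBigO_iff]
      refine ⟨2 * r + r ^ 2, ?_⟩
      filter_upwards [Filter.eventually_ge_atTop 3] with n hn
      have hlog1 : 1 ≤ Real.log (n : ℝ) := by
        rw [Real.le_log_iff_exp_le (by positivity)]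
        have h3 : (3 : ℝ) ≤ n := by exact_mod_cast hn
        have := Real.exp_one_lt_d9
        linarith
      have h1 := Helper77.PDomTheta.GammaUp_le_log (n := n) (r := r) (p := p) hr1 hpr (by omega)
      rw [Real.norm_of_nonneg (Nat.cast_nonneg _), Real.norm_of_nonneg (by linarith)]
      have hr0 : (0 : ℝ) ≤ r := Nat.cast_nonneg _
      nlinarith
    · rw [Asymptotics.isBigO_iff]
      refine ⟨Real.log 4, ?_⟩
      filter_upwards [Filter.eventually_ge_atTop (4 ^ 7)] with n hn
      have h1 := Helper77.PDomTheta.lower (n := n) (r := r) (p := p) (by omega) (by omega)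
        (by omega) hn
      have hlog4 : 0 < Real.log 4 := Real.log_pos (by norm_num)
      rw [div_le_iff₀ hlog4] at h1
      rw [Real.norm_of_nonneg (Nat.cast_nonneg _), Real.norm_of_nonneg (Real.log_natCast_nonneg n)]
      linarith
  · omega

end Pool.Agent.Helper77.ThetaLog
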